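import Pool.Agent.Lib.MP_fa837f_gt.P2.Iface

/-!
Project P2, row WB: algebra of the matrix `α`.
-/

set_option autoImplicit false

open MeasureTheory Matrix Set Filter Topology

namespace Pool.Agent.Lib.MP_fa837f_gt.P2.H5

variable {n k : ℕ}

theorem alr_aux (m : Fin n → Fin k → ℝ) (τ r : Fin n → ℝ) (hB : BFacts m r) (i l : Fin n) :
    ∑ j, al m τ r i j * r j * be m r j l = al m τ r i l := by
  unfold al
  have h1 : ∀ j, (τ i * be m r i j - ∑ p, be m r i p * (τ p * r p) * be m r p j) * r j *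
      be m r j l = τ i * (be m r i j * r j * be m r j l) -
        ∑ p, be m r i p * (τ p * r p) * (be m r p j * r j * be m r j l) := by
    intro j
    rw [sub_mul, sub_mul, Finset.sum_mul, Finset.sum_mul]
    congr 1
    · ring
    · exact Finset.sum_congr rfl fun p _ => by ring
  rw [Finset.sum_congr rfl fun j _ => h1 j, Finset.sum_sub_distrib, ← Finset.mul_sum, hB.proj,
    Finset.sum_comm]
  congr 1
  refine Finset.sum_congr rfl fun p _ => ?_
  rw [← Finset.mul_sum, hB.proj]

theorem alz_aux (m : Fin n → Fin k → ℝ) (τ r : Fin n → ℝ) (hB : BFacts m r) (i l : Fin n) :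
    ∑ j, be m r i j * r j * al m τ r j l = 0 := by
  unfold al
  have h1 : ∀ j, be m r i j * r j * (τ j * be m r j l -
      ∑ p, be m r j p * (τ p * r p) * be m r p l) = be m r i j * (τ j * r j) * be m r j l -
        ∑ p, (be m r i j * r j * be m r j p) * ((τ p * r p) * be m r p l) := by
    intro j
    rw [mul_sub, Finset.mul_sum]
    congr 1
    · ring
    · exact Finset.sum_congr rfl fun p _ => by ring
  rw [Finset.sum_congr rfl fun j _ => h1 j, Finset.sum_sub_distrib, sub_eq_zero]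
  rw [Finset.sum_comm]
  refine Finset.sum_congr rfl fun p _ => ?_
  rw [← Finset.sum_mul, hB.proj]
  ring

theorem alsq_aux (m : Fin n → Fin k → ℝ) (τ r : Fin n → ℝ) (hB : BFacts m r) (i l : Fin n) :
    ∑ j, al m τ r i j * r j * al m τ r j l = 0 := by
  have h1 : ∀ j, al m τ r i j * r j * al m τ r j l =
      ∑ p, al m τ r i p * r p * (be m r p j * r j * al m τ r j l) := by
    intro j
    conv_lhs => rw [← alr_aux m τ r hB i j]
    rw [Finset.sum_mul, Finset.sum_mul]
    exact Finset.sum_congr rfl fun p _ => by ring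
  rw [Finset.sum_congr rfl fun j _ => h1 j, Finset.sum_comm]
  refine Finset.sum_eq_zero fun p _ => ?_
  rw [← Finset.mul_sum, alz_aux m τ r hB, mul_zero]

theorem altt_aux (m : Fin n → Fin k → ℝ) (τ r : Fin n → ℝ) (hB : BFacts m r) :
    ∑ i, ∑ j, r i * r j * al m τ r i j ^ 2 = tt m τ r := by
  have h1 : ∀ i j, r i * r j * al m τ r i j ^ 2 =
      τ i * r i * (al m τ r i j * r j * be m r j i) -
        ∑ l, (r j * (τ l * r l) * be m r l j) * (be m r l i * r i * al m τ r i j) := by
    intro i j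
    have h2 : al m τ r i j = τ i * be m r i j - ∑ l, be m r i l * (τ l * r l) * be m r l j := rfl
    have h3 : r i * r j * al m τ r i j ^ 2 = r i * r j * al m τ r i j *
        (τ i * be m r i j - ∑ l, be m r i l * (τ l * r l) * be m r l j) := by
      rw [← h2]; ring
    rw [h3, mul_sub, Finset.mul_sum]
    congr 1
    · rw [hB.symm i j]; ring
    · refine Finset.sum_congr rfl fun l _ => ?_
      rw [hB.symm i l]; ring
  rw [Finset.sum_congr rfl fun i _ => Finset.sum_congr rfl fun j _ => h1 i j]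
  have h4 : ∀ i, ∑ j, (τ i * r i * (al m τ r i j * r j * be m r j i) -
        ∑ l, (r j * (τ l * r l) * be m r l j) * (be m r l i * r i * al m τ r i j)) =
      τ i * r i * al m τ r i i -
        ∑ j, ∑ l, (r j * (τ l * r l) * be m r l j) * (be m r l i * r i * al m τ r i j) := by
    intro i
    rw [Finset.sum_sub_distrib, ← Finset.mul_sum, alr_aux m τ r hB]
  rw [Finset.sum_congr rfl fun i _ => h4 i, Finset.sum_sub_distrib]
  have h5 : ∑ i, ∑ j, ∑ l, (r j * (τ l * r l) * be m r l j) *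
      (be m r l i * r i * al m τ r i j) = 0 := by
    rw [Finset.sum_comm]
    refine Finset.sum_eq_zero fun j _ => ?_
    rw [Finset.sum_comm]
    refine Finset.sum_eq_zero fun l _ => ?_
    rw [← Finset.mul_sum, alz_aux m τ r hB, mul_zero]
  rw [h5, sub_zero]
  rfl

theorem nntt_aux (m : Fin n → Fin k → ℝ) (τ r : Fin n → ℝ) (hB : BFacts m r) :
    ∑ i, nn m τ r i = 2 * tt m τ r := by
  have h1 : ∀ i, nn m τ r i = ∑ j, r i * r j * al m τ r i j ^ 2 +
      ∑ j, r j * r i * al m τ r j i ^ 2 := by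
    intro i
    unfold nn
    rw [← Finset.sum_add_distrib]
    exact Finset.sum_congr rfl fun j _ => by ring
  rw [Finset.sum_congr rfl fun i _ => h1 i, Finset.sum_add_distrib, altt_aux m τ r hB]
  have h2 : ∑ i, ∑ j, r j * r i * al m τ r j i ^ 2 = tt m τ r := by
    rw [Finset.sum_comm, altt_aux m τ r hB]
  rw [h2]
  ring

theorem nn0_aux (m : Fin n → Fin k → ℝ) (τ r : Fin n → ℝ) (hr : ∀ i, 0 < r i) (i : Fin n) :
    0 ≤ nn m τ r i := by
  unfold nn
  refine Finset.sum_nonneg fun j _ => ?_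
  have := (hr i).le
  have := (hr j).le
  positivity

theorem nnb_aux (m : Fin n → Fin k → ℝ) (τ r : Fin n → ℝ) (hB : BFacts m r) (i : Fin n) :
    ∑ j, r i * r j * (al m τ r i j + al m τ r j i) ^ 2 = nn m τ r i := by
  have h1 : ∀ j, r i * r j * (al m τ r i j + al m τ r j i) ^ 2 =
      r i * r j * (al m τ r i j ^ 2 + al m τ r j i ^ 2) +
        2 * r i * (al m τ r i j * r j * al m τ r j i) := by
    intro j; ring
  rw [Finset.sum_congr rfl fun j _ => h1 j, Finset.sum_add_distrib, ← Finset.mul_sum,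
    alsq_aux m τ r hB]
  simp [nn]

theorem alx_aux (m : Fin n → Fin k → ℝ) (τ r : Fin n → ℝ) (hB : BFacts m r) (i : Fin n)
    (x : Fin k → ℝ) : ∑ j, al m τ r i j * r j * (m j ⬝ᵥ x) =
    τ i * (m i ⬝ᵥ x) - ∑ j, be m r i j * (τ j * r j) * (m j ⬝ᵥ x) := by
  unfold al
  have h1 : ∀ j, (τ i * be m r i j - ∑ p, be m r i p * (τ p * r p) * be m r p j) * r j *
      (m j ⬝ᵥ x) = τ i * (be m r i j * r j * (m j ⬝ᵥ x)) -
        ∑ p, be m r i p * (τ p * r p) * (be m r p j * r j * (m j ⬝ᵥ x)) := by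
    intro j
    rw [sub_mul, sub_mul, Finset.sum_mul, Finset.sum_mul]
    congr 1
    · ring
    · exact Finset.sum_congr rfl fun p _ => by ring
  rw [Finset.sum_congr rfl fun j _ => h1 j, Finset.sum_sub_distrib, ← Finset.mul_sum, hB.repr,
    Finset.sum_comm]
  congr 1
  refine Finset.sum_congr rfl fun p _ => ?_
  rw [← Finset.mul_sum, hB.repr]

theorem ab1_aux (m : Fin n → Fin k → ℝ) (τ r : Fin n → ℝ) (hr : ∀ i, 0 < r i)
    (hB : BFacts m r) (i : Fin n) : |r i * al m τ r i i| ≤ 2 * ∑ j, |τ j| := by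
  have h1 : r i * al m τ r i i = τ i * (r i * be m r i i) -
      ∑ l, (r i * r l * be m r i l ^ 2) * τ l := by
    unfold al
    rw [mul_sub, Finset.mul_sum]
    congr 1
    · ring
    · refine Finset.sum_congr rfl fun l _ => ?_
      rw [hB.symm l i]; ring
  have hb0 : ∀ j, 0 ≤ r j * be m r j j := fun j => mul_nonneg (hr j).le (hB.nonneg j)
  have h2 : ∀ l, 0 ≤ r i * r l * be m r i l ^ 2 ∧ r i * r l * be m r i l ^ 2 ≤ 1 := by
    intro l
    have hi := hr i
    have hl := hr l
    constructor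
    · positivity
    · have h3 : r i * r l * be m r i l ^ 2 ≤ r i * r l * (be m r i i * be m r l l) :=
        mul_le_mul_of_nonneg_left (hB.cs i l) (by positivity)
      have h4 : (r i * be m r i i) * (r l * be m r l l) ≤ 1 * 1 :=
        mul_le_mul (hB.le1 i) (hB.le1 l) (hb0 l) zero_le_one
      nlinarith
  have h5 : |∑ l, (r i * r l * be m r i l ^ 2) * τ l| ≤ ∑ l, |τ l| := by
    refine (Finset.abs_sum_le_sum_abs _ _).trans (Finset.sum_le_sum fun l _ => ?_)
    rw [abs_mul, abs_of_nonneg (h2 l).1]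
    exact mul_le_of_le_one_left (abs_nonneg _) (h2 l).2
  have h6 : |τ i * (r i * be m r i i)| ≤ ∑ l, |τ l| := by
    have h7 : |τ i * (r i * be m r i i)| ≤ |τ i| := by
      rw [abs_mul, abs_of_nonneg (hb0 i)]
      exact mul_le_of_le_one_right (abs_nonneg _) (hB.le1 i)
    exact h7.trans (Finset.single_le_sum (f := fun l => |τ l|) (fun l _ => abs_nonneg _)
      (Finset.mem_univ i))
  rw [h1]
  calc |τ i * (r i * be m r i i) - ∑ l, (r i * r l * be m r i l ^ 2) * τ l|
      ≤ |τ i * (r i * be m r i i)| + |∑ l, (r i * r l * be m r i l ^ 2) * τ l| := abs_sub _ _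
    _ ≤ 2 * ∑ j, |τ j| := by linarith

theorem ab2_aux (m : Fin n → Fin k → ℝ) (τ r : Fin n → ℝ) (hr : ∀ i, 0 < r i)
    (hB : BFacts m r) : |aa m τ r| ≤ ∑ j, |τ j| := by
  unfold aa
  refine (Finset.abs_sum_le_sum_abs _ _).trans (Finset.sum_le_sum fun l _ => ?_)
  rw [mul_assoc, abs_mul, abs_of_nonneg (mul_nonneg (hr l).le (hB.nonneg l))]
  exact mul_le_of_le_one_right (abs_nonneg _) (hB.le1 l)

/-- Row WB. -/
theorem wb_st (hWa : WaStatement) : WbStatement := by
  intro n k m τ r hm hr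
  have hB := hWa n k m r hm hr
  exact
    { alr := alr_aux m τ r hB
      alz := alz_aux m τ r hB
      alsq := alsq_aux m τ r hB
      altt := altt_aux m τ r hB
      nntt := nntt_aux m τ r hB
      nn0 := nn0_aux m τ r hr
      nnb := nnb_aux m τ r hB
      alx := alx_aux m τ r hB
      ab1 := ab1_aux m τ r hr hB
      ab2 := ab2_aux m τ r hr hB }

end Pool.Agent.Lib.MP_fa837f_gt.P2.H5
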